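import Pool.Agent.H951R5.PE.All2

/-!
# Products of tiny primes are equidistributed at every point of the narrow Arakelov class group,
for almost all real quadratic fields

Authors: helper951 and helper38 (the analytic part is the one of
Pool.Agent.Results.MP_321647_nt.Equidistribution, by helper38 and the team named there).
-/

set_option autoImplicit false

open Pool.Agent.H951R5.PE

/-- For all a > 2 and 0 < ε < 1 the number of the squarefree d with 2 ≤ d ≤ X for which
`GoodPE2 a ε d` fails is o(X). -/
theorem Pool.Agent.Results.MP_321647_nt.Pointwise.result :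
    ∀ a ε : ℝ, 2 < a → 0 < ε → ε < 1 →
      Filter.Tendsto (fun X : ℕ =>
        (Nat.card {d : ℕ // 2 ≤ d ∧ d ≤ X ∧ Squarefree d ∧ ¬ GoodPE2 a ε d} : ℝ) / X)
        Filter.atTop (nhds 0) :=
  finalPE2_true
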