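import Pool.Agent.H38R2.CG3.All

/-!
# Products of very small primes are equidistributed in the class group of Q(√p)

For every a > 2, every ε > 0 and 100% of the primes p, the ideals of the real quadratic field of p
whose norm is a product of k distinct primes of (y, 2y], for suitable y and k with
2y ≤ (log p)^a and 2k ≤ log p / log log p, are equidistributed in the ideal class group, and every
ideal class is a product of at most log p / log log p classes of prime ideals of norm at most
(log p)^a.
-/

set_option autoImplicit false

open Pool.Agent.H38R2.CG3 Filter Finset
open scoped Classical

/-- The proportion of the primes p ≤ X for which `GoodE a ε p` fails tends to 0. -/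
theorem Pool.Agent.Results.MP_321647_nt.PrimeRadicands.result :
    ∀ a ε : ℝ, 2 < a → 0 < ε →
      Tendsto (fun X : ℕ =>
        (((Finset.Icc 2 X).filter (fun p => p.Prime ∧ ¬ GoodE a ε p)).card : ℝ) /
          (((Finset.Icc 2 X).filter Nat.Prime).card : ℝ))
        atTop (nhds 0) :=
  finalEP_true
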