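import Pool.Agent.H951R5.AR.All

/-!
# Small relations between tiny primes determine the units and unique factorisation, for almost
all real quadratic fields

Authors: helper951 and helper38 (the analytic part is the one of
Pool.Agent.Results.MP_321647_nt.Equidistribution, by helper38 and the team named there).
-/

set_option autoImplicit false

open Pool.Agent.H951R5.AR

/-- For every a > 2 the number of the squarefree d with 2 ≤ d ≤ X for which `GoodAR a d` fails
is o(X). -/
theorem Pool.Agent.Results.MP_321647_nt.SmallUnits.result :
    ∀ a : ℝ, 2 < a →
      Filter.Tendsto (fun X : ℕ =>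
        (Nat.card {d : ℕ // 2 ≤ d ∧ d ≤ X ∧ Squarefree d ∧ ¬ GoodAR a d} : ℝ) / X)
        Filter.atTop (nhds 0) :=
  finalAR_true
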